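import Pool.Agent.FAC.Final

/-!
# The number of factorials that are products of three consecutive integers

The equation `n! = (m - 1) m (m + 1)` has at most `C N^(4/5)` solutions with `n ≤ N`.

Method: simultaneous approximation forms in the ten monomials `m_i m_j` attached to four solutions
`n, n + k_1, n + k_2, n + k_3` in one residue class modulo 3 and in a short interval; the auxiliary
polynomials come from the pigeonhole principle, the forms are rational with a controlled denominator
and small at the points `1/n`, hence vanish there to high order, and a Wronskian-type determinant
bounds the number of such `n` for every pattern `(k_1, k_2, k_3)`.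
-/

namespace Pool.Agent.Results.MP_a9bfd1_nt.CountFourFifths

/-- **Main theorem.** The number of `n ≤ N` for which `n!` is a product of three consecutive
integers is at most `C N^(4/5)`, with an absolute constant `C`. -/
theorem result : ∃ C : ℝ, 0 < C ∧ ∀ N : ℕ, 1 ≤ N →
    ({n : ℕ | 1 ≤ n ∧ n ≤ N ∧
        ∃ m : ℕ, 0 < m ∧ n.factorial = (m - 1) * m * (m + 1)}.ncard : ℝ) ≤
      C * (N : ℝ) ^ ((4 : ℝ) / 5) :=
  FAC.count_final

end Pool.Agent.Results.MP_a9bfd1_nt.CountFourFifths
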